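import Pool.Agent.helper59.GF.Spec

set_option autoImplicit false

/-!
# Row gf:ASY (MP_06d6be_co): the sign of the weighted sum for tuples with two sets of one class
-/

namespace Pool.Agent.GF

open Filter Topology

theorem ASY (hCLP : CLP_stmt) (hMUR : MUR_stmt) : ASY_stmt := by
  classical
  intro p m I hI hI1
  obtain ⟨r₀, r₁, hne, hcl, hidx, hmin⟩ := hCLP p m I hI hI1
  refine ⟨r₀, r₁, hne, hcl, ?_⟩
  obtain ⟨h0, h1, h2⟩ := hMUR p m I r₀ r₁ hI hne hcl hidx hmin
  intro B φ hφ
  -- the limits of the quotients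
  let t : Fin (p + 2) → ℝ := fun r => if r = r₀ then 1 else if r = r₁ then -1 else 0
  set η : ℝ := φ / (2 * (p + 2) * (|B| + 1)) with hη
  have hη0 : 0 < η := by positivity
  have hlim : ∀ r, ∀ᶠ δ in 𝓝[>] (0 : ℝ),
      |mu p (nd p m δ ∘ I) r / mu p (nd p m δ ∘ I) r₀ - t r| < η := by
    intro r
    by_cases hr0 : r = r₀
    · filter_upwards [h0] with δ hδ
      simp only [t, if_pos hr0]
      rw [hr0, div_self hδ, sub_self, abs_zero]
      exact hη0
    · by_cases hr1 : r = r₁
      · have h3 := (Metric.tendsto_nhds.mp h1) η hη0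
        filter_upwards [h3] with δ hδ
        rw [Real.dist_eq] at hδ
        simp only [t, if_neg hr0, if_pos hr1]
        rw [hr1]
        exact hδ
      · have h3 := (Metric.tendsto_nhds.mp (h2 r hr0 hr1)) η hη0
        filter_upwards [h3] with δ hδ
        rw [Real.dist_eq] at hδ
        simp only [t, if_neg hr0, if_neg hr1]
        exact hδ
  filter_upwards [h0, eventually_all.mpr hlim] with δ hδ0 hδ
  refine ⟨1 / mu p (nd p m δ ∘ I) r₀, ?_⟩
  intro F hF hFφ
  have e1 : 1 / mu p (nd p m δ ∘ I) r₀ * ∑ r, mu p (nd p m δ ∘ I) r * F r =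
      ∑ r, (mu p (nd p m δ ∘ I) r / mu p (nd p m δ ∘ I) r₀ - t r) * F r + ∑ r, t r * F r := by
    rw [Finset.mul_sum, ← Finset.sum_add_distrib]
    apply Finset.sum_congr rfl
    intro r _
    field_simp
    ring
  have e2 : ∑ r, t r * F r = F r₀ - F r₁ := by
    have e3 : ∀ r, t r * F r = (if r = r₀ then F r else 0) - (if r = r₁ then F r else 0) := by
      intro r
      by_cases hr0 : r = r₀
      · have hr1 : r ≠ r₁ := by rw [hr0]; exact hne
        simp only [t, if_pos hr0, if_neg hr1]
        ring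
      · by_cases hr1 : r = r₁
        · simp only [t, if_neg hr0, if_pos hr1]
          ring
        · simp only [t, if_neg hr0, if_neg hr1]
          ring
    rw [Finset.sum_congr rfl fun r _ => e3 r, Finset.sum_sub_distrib]
    simp
  have e4 : |∑ r, (mu p (nd p m δ ∘ I) r / mu p (nd p m δ ∘ I) r₀ - t r) * F r| ≤ φ / 2 := by
    calc |∑ r, (mu p (nd p m δ ∘ I) r / mu p (nd p m δ ∘ I) r₀ - t r) * F r|
        ≤ ∑ r, |(mu p (nd p m δ ∘ I) r / mu p (nd p m δ ∘ I) r₀ - t r) * F r| :=
          Finset.abs_sum_le_sum_abs _ _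
      _ ≤ ∑ _r : Fin (p + 2), η * (|B| + 1) := by
          apply Finset.sum_le_sum
          intro r _
          rw [abs_mul]
          apply mul_le_mul (hδ r).le _ (abs_nonneg _) hη0.le
          exact (hF r).trans (by linarith [le_abs_self B])
      _ = φ / 2 := by
          rw [Finset.sum_const, Finset.card_univ, Fintype.card_fin, nsmul_eq_mul, hη]
          push_cast
          field_simp
  rw [e1, e2]
  have := (abs_le.mp e4).1
  linarith

end Pool.Agent.GF
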